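import Pool.Agent.helper14.AV.Spec

/-! # Project AV, row GLB: the path through the cells along a path of the tree -/

set_option autoImplicit false

namespace Pool.Agent.helper14.AV

theorem GLB_mem {α : Type} : ∀ (l : List α) (f : α × α), f ∈ edges l → f.1 ∈ l ∧ f.2 ∈ l
  | [], f, h => by simp [edges] at h
  | [_], f, h => by simp [edges] at h
  | x :: y :: l, f, h => by
    rw [edges, List.mem_cons] at h
    rcases h with h | h
    · rw [h]; simp
    · have := GLB_mem (y :: l) f h
      exact ⟨List.mem_cons_of_mem _ this.1, List.mem_cons_of_mem _ this.2⟩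

theorem GLB_tail {α : Type} (a : α) (l : List α) (f : α × α) (h : f ∈ edges (a :: l)) : f.2 ∈ l := by
  cases l with
  | nil => simp [edges] at h
  | cons y l =>
    rw [edges, List.mem_cons] at h
    rcases h with h | h
    · rw [h]; simp
    · exact (GLB_mem _ f h).2

theorem GLB_init {α : Type} (t : α) : ∀ (l : List α) (f : α × α), f ∈ edges (l ++ [t]) → f.1 ∈ l
  | [], f, h => by simp [edges] at h
  | [a], f, h => by
    simp [edges] at h
    rw [h]; simp
  | a :: b :: l, f, h => by
    have h' : f ∈ (a, b) :: edges (b :: l ++ [t]) := h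
    rw [List.mem_cons] at h'
    rcases h' with h' | h'
    · rw [h']; simp
    · exact List.mem_cons_of_mem _ (GLB_init t (b :: l) f h')

theorem GLB_ne {ι : Type} : ∀ (l : List (ι × Bool)) (_ : (l.map Prod.fst).Nodup)
    (f : (ι × Bool) × (ι × Bool)), f ∈ edges l → f.1.1 ≠ f.2.1
  | [], _, f, h => by simp [edges] at h
  | [_], _, f, h => by simp [edges] at h
  | x :: y :: l, hn, f, h => by
    rw [edges, List.mem_cons] at h
    rw [List.map_cons, List.nodup_cons] at hn
    rcases h with h | h
    · rw [h]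
      intro heq
      apply hn.1
      have heq' : x.1 = y.1 := heq
      rw [heq']
      simp
    · exact GLB_ne (y :: l) hn.2 f h

theorem GLB_fn {ι : Type} (A B : ι → ℝ × ℝ) (P : ℝ × ℝ → Prop) (y : ι × Bool) (h : P (A y.1) ∧ P (B y.1)) :
    P (fn A B y) := by
  unfold fn
  split_ifs
  · exact h.2
  · exact h.1

theorem GLB_st {ι : Type} (A B : ι → ℝ × ℝ) (P : ℝ × ℝ → Prop) (y : ι × Bool) (h : P (A y.1) ∧ P (B y.1)) :
    P (st A B y) := by
  unfold st
  split_ifs
  · exact h.1
  · exact h.2

theorem GLB_cell (hICA : ICA_stmt) {ι V : Type} [DecidableEq ι] (A B : ι → ℝ × ℝ) (T : SimpleGraph V)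
    (e : ι → Sym2 V) (anc : V → Finset ι) (τ : V → ι → Bool) (hS : Setup A B T e anc τ) (c : V)
    (x : ι × Bool) (hx : c ∈ e x.1) (t : ι) (ht : c ∈ e t) (htx : t ≠ x.1) :
    ∃ (w : List (ι × Bool)) (b : Bool), ((x :: (w ++ [(t, b)])).map Prod.fst).Nodup ∧
      (∀ i, i ∈ (x :: (w ++ [(t, b)])).map Prod.fst ↔ c ∈ e i) ∧ PD A B (x :: (w ++ [(t, b)])) := by
  classical
  obtain ⟨-, -, -, -, h5, -, -⟩ := hS
  have hI : ∀ i, i ∈ (anc c).filter (fun i => c ∈ e i) ↔ c ∈ e i := by
    intro i
    rw [Finset.mem_filter]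
    exact ⟨fun h => h.2, fun h => ⟨(h5 i c h).1, h⟩⟩
  obtain ⟨w, b, h1, h2, h3⟩ := hICA ι A B (τ c) ((anc c).filter (fun i => c ∈ e i)) (by
    intro i hi j hj hij
    rw [hI] at hi hj
    exact (h5 j c hj).2 i (h5 i c hi).1 hij) x ((hI _).2 hx) t ((hI _).2 ht) htx
  exact ⟨w, b, h1, fun i => (h2 i).trans (hI i), h3⟩

theorem GLB_sg (a b : Bool) (h : a ≠ b) (r : ℝ) (hr : 0 < sg b * r) : sg a * r < 0 := by
  cases a <;> cases b <;> simp_all [sg]

theorem GLB (hICA : ICA_stmt) (hLMX : LMX_stmt) (hEAP : EAP_stmt) (hTRU : TRU_stmt) : GLB_stmt := by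
  intro ι V _ A B T e anc τ hS c d p
  obtain ⟨hT, hinj, hran, hAB, h5, h6, h7⟩ := id hS
  induction p with
  | @nil c =>
    intro _ x hx _
    by_cases hone : ∀ t, c ∈ e t → t = x.1
    · refine ⟨[], by simp, ?_, ?_, ?_⟩
      · intro i
        simp only [List.map_cons, List.map_nil, List.mem_singleton, SimpleGraph.Walk.support_nil]
        constructor
        · rintro rfl
          exact ⟨c, rfl, hx⟩
        · rintro ⟨c', rfl, h⟩
          exact hone i h
      · intro f hf
        simp [edges] at hf
      · simp [PD, edges]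
    · push Not at hone
      obtain ⟨t, ht, htx⟩ := hone
      obtain ⟨w, b, h1, h2, h3⟩ := GLB_cell hICA A B T e anc τ hS c x hx t ht htx
      refine ⟨w ++ [(t, b)], h1, ?_, ?_, h3⟩
      · intro i
        rw [h2]
        simp
      · intro f hf
        have := GLB_mem _ f hf
        refine ⟨c, by simp, ?_, ?_⟩
        · exact (h2 f.1.1).1 (List.mem_map_of_mem this.1)
        · exact (h2 f.2.1).1 (List.mem_map_of_mem this.2)
  | @cons c c1 d h p ih =>
    intro hp x hx hnx
    have hpp : p.IsPath := ((SimpleGraph.Walk.cons_isPath_iff h p).1 hp).1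
    have hcp : c ∉ p.support := ((SimpleGraph.Walk.cons_isPath_iff h p).1 hp).2
    have hcc1 : c ≠ c1 := h.ne
    obtain ⟨t, ht⟩ : ∃ t, e t = s(c, c1) := by
      have : s(c, c1) ∈ Set.range e := by
        rw [hran]
        exact h
      exact this
    have hct : c ∈ e t := by rw [ht]; exact Sym2.mem_mk_left _ _
    have hc1t : c1 ∈ e t := by rw [ht]; exact Sym2.mem_mk_right _ _
    have hc1s : c1 ∈ p.support := SimpleGraph.Walk.start_mem_support p
    have htx : t ≠ x.1 := by
      rintro rfl
      exact hnx c1 (by rw [SimpleGraph.Walk.support_cons]; exact List.mem_cons_of_mem _ hc1s) hcc1.symm hc1t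
    obtain ⟨w0, b, a1, a2, a3⟩ := GLB_cell hICA A B T e anc τ hS c x hx t hct htx
    obtain ⟨w1, b1, b2, b3, b4⟩ := ih hpp (t, b) hc1t (by
      intro c' hc' hne hmem
      rw [ht, Sym2.mem_iff] at hmem
      rcases hmem with rfl | rfl
      · exact hcp hc'
      · exact hne rfl)
    have hl1 : ∀ i, i ∈ (x :: w0).map Prod.fst → c ∈ e i ∧ i ≠ t := by
      intro i hi
      have e1 : (x :: (w0 ++ [(t, b)])).map Prod.fst = (x :: w0).map Prod.fst ++ [t] := by simp
      constructor
      · refine (a2 i).1 ?_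
        rw [e1, List.mem_append]
        exact Or.inl hi
      · rintro rfl
        rw [e1, List.nodup_append] at a1
        exact a1.2.2 i hi i (by simp) rfl
    have hdis : ∀ i, i ∈ (x :: w0).map Prod.fst → i ∈ (((t, b) :: w1).map Prod.fst) → False := by
      intro i hi hi'
      obtain ⟨g1, g2⟩ := hl1 i hi
      obtain ⟨c', hc', hci⟩ := (b2 i).1 hi'
      have hcc' : c ≠ c' := by
        rintro rfl
        exact hcp hc'
      have hei : e i = s(c, c') := (Sym2.mem_and_mem_iff hcc').1 ⟨g1, hci⟩
      have hadj : T.Adj c c' := by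
        have : e i ∈ T.edgeSet := by
          rw [← hran]
          exact ⟨i, rfl⟩
        rw [hei] at this
        exact this
      have hc'1 : c' = c1 := hTRU V T c c1 d h p hT.isAcyclic hp c' hc' hadj
      apply g2
      apply hinj
      rw [hei, ht, hc'1]
    have hsp : edges (x :: (w0 ++ (t, b) :: w1)) = edges ((x :: w0) ++ [(t, b)]) ++ edges ((t, b) :: w1) :=
      hEAP _ (x :: w0) w1 (t, b)
    have hf1 : ∀ f ∈ edges ((x :: w0) ++ [(t, b)]), c ∈ e f.1.1 ∧ c ∈ e f.2.1 := by
      intro f hf
      have := GLB_mem _ f hf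
      exact ⟨(a2 f.1.1).1 (List.mem_map_of_mem this.1), (a2 f.2.1).1 (List.mem_map_of_mem this.2)⟩
    refine ⟨w0 ++ (t, b) :: w1, ?_, ?_, ?_, ?_⟩
    · have e2 : (x :: (w0 ++ (t, b) :: w1)).map Prod.fst =
        (x :: w0).map Prod.fst ++ ((t, b) :: w1).map Prod.fst := by simp
      rw [e2, List.nodup_append]
      refine ⟨?_, b1, ?_⟩
      · have e1 : (x :: (w0 ++ [(t, b)])).map Prod.fst = (x :: w0).map Prod.fst ++ [t] := by simp
        rw [e1, List.nodup_append] at a1
        exact a1.1
      · intro i hi j hj hij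
        subst hij
        exact hdis i hi hj
    · intro i
      have e2 : (x :: (w0 ++ (t, b) :: w1)).map Prod.fst =
        (x :: w0).map Prod.fst ++ ((t, b) :: w1).map Prod.fst := by simp
      rw [e2, List.mem_append, SimpleGraph.Walk.support_cons]
      constructor
      · rintro (hi | hi)
        · exact ⟨c, by simp, (hl1 i hi).1⟩
        · obtain ⟨c', hc', hci⟩ := (b2 i).1 hi
          exact ⟨c', List.mem_cons_of_mem _ hc', hci⟩
      · rintro ⟨c', hc', hci⟩
        rw [List.mem_cons] at hc'
        rcases hc' with rfl | hc'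
        · have := (a2 i).2 hci
          have e1 : (x :: (w0 ++ [(t, b)])).map Prod.fst = (x :: w0).map Prod.fst ++ [t] := by simp
          rw [e1, List.mem_append] at this
          rcases this with h' | h'
          · exact Or.inl h'
          · right
            rw [List.mem_singleton] at h'
            rw [h']
            simp
        · exact Or.inr ((b2 i).2 ⟨c', hc', hci⟩)
    · intro f hf
      rw [hsp, List.mem_append] at hf
      rcases hf with hf | hf
      · exact ⟨c, by simp, hf1 f hf⟩
      · obtain ⟨c', hc', hci⟩ := b3 f hf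
        exact ⟨c', by rw [SimpleGraph.Walk.support_cons]; exact List.mem_cons_of_mem _ hc', hci⟩
    · unfold PD
      rw [hsp, List.pairwise_append]
      refine ⟨a3, b4, ?_⟩
      intro y hy z hz
      obtain ⟨c', hc', hz1, hz2⟩ := b3 z hz
      obtain ⟨hy1, hy2⟩ := hf1 y hy
      have hcc' : c ≠ c' := by
        rintro rfl
        exact hcp hc'
      obtain ⟨u, hu, hu', hτ⟩ := h7 c c' hcc'
      have m1 : y.1 ∈ x :: w0 := GLB_init _ _ _ hy
      have m2 := GLB_mem _ _ hy
      have m3 := GLB_mem _ _ hz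
      have m4 : z.2 ∈ w1 := GLB_tail _ _ _ hz
      have n1 : y.1.1 ∈ (x :: w0).map Prod.fst := List.mem_map_of_mem m1
      have n3 : z.1.1 ∈ ((t, b) :: w1).map Prod.fst := List.mem_map_of_mem m3.1
      have n4 : z.2.1 ∈ ((t, b) :: w1).map Prod.fst := List.mem_map_of_mem m3.2
      have hn : t ∉ w1.map Prod.fst := by
        rw [List.map_cons, List.nodup_cons] at b1
        exact b1.1
      have hy2c : y.2 ∈ x :: w0 ∨ y.2 = (t, b) := by
        have := m2.2
        rw [List.mem_append, List.mem_singleton] at this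
        exact this
      refine hLMX ι A B u (sg (τ c u)) y.1 y.2 z.1 z.2 (hAB u) (GLB_ne _ a1 y hy) (GLB_ne _ b1 z hz)
        ?_ ?_ ?_ ?_ ?_ ?_ ?_ ?_
      · intro heq
        exact hdis _ n1 (heq ▸ n3)
      · intro heq
        exact hdis _ n1 (heq ▸ n4)
      · intro heq
        rcases hy2c with h' | h'
        · exact hdis _ (List.mem_map_of_mem h') (heq ▸ n4)
        · apply hn
          rw [h'] at heq
          have heq' : t = z.2.1 := heq
          rw [heq']
          exact List.mem_map_of_mem m4
      · intro heq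
        rcases hy2c with h' | h'
        · exact (hdis _ (List.mem_map_of_mem h') (heq ▸ n3)).elim
        · rw [h'] at heq ⊢
          have heq' : t = z.1.1 := heq
          have := m3.1
          rw [List.mem_cons] at this
          rcases this with h'' | h''
          · exact h''.symm
          · exact (hn (by rw [heq']; exact List.mem_map_of_mem h'')).elim
      · intro hne
        exact GLB_fn A B (fun q => 0 < sg (τ c u) * D (A u) (B u) q) y.1 ((h5 y.1.1 c hy1).2 u hu hne.symm)
      · intro hne
        exact GLB_st A B (fun q => 0 < sg (τ c u) * D (A u) (B u) q) y.2 ((h5 y.2.1 c hy2).2 u hu hne.symm)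
      · intro hne
        have := (h5 z.1.1 c' hz1).2 u hu' hne.symm
        exact GLB_fn A B (fun q => sg (τ c u) * D (A u) (B u) q < 0) z.1
          ⟨GLB_sg _ _ hτ _ this.1, GLB_sg _ _ hτ _ this.2⟩
      · intro hne
        have := (h5 z.2.1 c' hz2).2 u hu' hne.symm
        exact GLB_st A B (fun q => sg (τ c u) * D (A u) (B u) q < 0) z.2
          ⟨GLB_sg _ _ hτ _ this.1, GLB_sg _ _ hτ _ this.2⟩

end Pool.Agent.helper14.AV
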